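import Mathlib

/-!
# Block structure of solutions of the Yang-Baxter equation of size `p ^ 2`

The solutions `σ_(i,j) (k, l) = (k + j, l - t (k + j - i))` on `(ℤ / p) ^ 2` with `t 0 = 0` and `t a = 1`
for `a ≠ 0`, and the solutions obtained from them by relabelling the fibres.
-/

set_option autoImplicit false

namespace Pool.Agent.Results.MP_a65784_al.BlockStructure

/-- the map `r(x, y) = (σ_x(y), σ_(σ_x(y))⁻¹(x))` -/
def rMap {X : Type} (σ : X → Equiv.Perm X) (q : X × X) : X × X :=
  (σ q.1 q.2, (σ (σ q.1 q.2)).symm q.1)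

/-- `r × id` on `X ^ 3` -/
def r12 {X : Type} (σ : X → Equiv.Perm X) (q : X × X × X) : X × X × X :=
  ((rMap σ (q.1, q.2.1)).1, (rMap σ (q.1, q.2.1)).2, q.2.2)

/-- `id × r` on `X ^ 3` -/
def r23 {X : Type} (σ : X → Equiv.Perm X) (q : X × X × X) : X × X × X :=
  (q.1, (rMap σ q.2).1, (rMap σ q.2).2)

/-- `σ` defines a solution: `r` satisfies the braid relation -/
def IsSolution {X : Type} (σ : X → Equiv.Perm X) : Prop :=
  r12 σ ∘ r23 σ ∘ r12 σ = r23 σ ∘ r12 σ ∘ r23 σ

/-- the permutation group of the solution -/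
def group {X : Type} (σ : X → Equiv.Perm X) : Subgroup (Equiv.Perm X) :=
  Subgroup.closure (Set.range σ)

/-- the group acts transitively -/
def Indecomposable {X : Type} (σ : X → Equiv.Perm X) : Prop :=
  ∀ x y : X, ∃ g ∈ group σ, g x = y

/-- `σ` is injective -/
def Irretractable {X : Type} (σ : X → Equiv.Perm X) : Prop := Function.Injective σ

/-- The block setting: `σ_(y,z) (y', z') = (β_(y,z) y', α_(y,z,y') z')`. -/
def BlockForm {Y Z : Type} (σ : Y × Z → Equiv.Perm (Y × Z)) (β : Y → Z → Equiv.Perm Y)
    (α : Y → Z → Y → Equiv.Perm Z) : Prop :=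
  ∀ y z y' z', σ (y, z) (y', z') = (β y z y', α y z y' z')

/-- the property asked for in Q1 -/
def Q1Property {Y Z : Type} (β : Y → Z → Equiv.Perm Y) : Prop := ∀ y y' z, β y z = β y' z

/-- the property asked for in Q2 -/
def Q2Property {Y Z : Type} (β : Y → Z → Equiv.Perm Y) (α : Y → Z → Y → Equiv.Perm Z) : Prop :=
  ∀ y y' y'' z z', α y z y' = α y z' y'' ↔ β y z y' = β y z' y''

/-- The relabelling of the fibres: the point `(y, z)` gets the new name `(y, π_y z)`. -/
def relabel {Y Z : Type} (π : Y → Equiv.Perm Z) : Equiv.Perm (Y × Z) where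
  toFun x := (x.1, π x.1 x.2)
  invFun x := (x.1, (π x.1).symm x.2)
  left_inv x := by simp
  right_inv x := by simp

/-- the isomorphic copy of the solution `σ` with relabelled fibres -/
def transport {Y Z : Type} (π : Y → Equiv.Perm Z) (σ : Y × Z → Equiv.Perm (Y × Z)) :
    Y × Z → Equiv.Perm (Y × Z) :=
  fun x => (relabel π).symm.trans ((σ ((relabel π).symm x)).trans (relabel π))

section general

variable {X : Type}

lemma isSolution_of (σ : X → Equiv.Perm X)
    (h : ∀ x y z, σ x (σ ((σ x).symm y) z) = σ y (σ ((σ y).symm x) z)) : IsSolution σ := by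
  -- the same identity with `y` replaced by `σ x y`
  have h' : ∀ x y z, σ x (σ y z) = σ (σ x y) (σ ((σ (σ x y)).symm x) z) := by
    intro x y z
    have := h x (σ x y) z
    rwa [Equiv.symm_apply_apply] at this
  funext ⟨x, y, z⟩
  simp only [r12, r23, rMap, Function.comp_apply]
  set a := σ x y with ha
  set b := (σ a).symm x with hb
  set c := σ b z with hc
  have e1 : σ x (σ y z) = σ a c := by rw [hc, hb, ha]; exact h' x y z
  have e2 : σ a b = x := by rw [hb]; simp
  set d := σ y z with hd
  set f := (σ d).symm y with hf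
  have e3 : σ d f = y := by rw [hf]; simp
  refine Prod.ext e1.symm ?_
  -- left second: (σ (σ a c)).symm a ; right: σ ((σ (σ x d)).symm x) f
  have key : σ (σ x d) (σ ((σ (σ x d)).symm x) f) = a := by
    rw [← h' x d f, e3]
  have e4 : (σ (σ a c)).symm a = σ ((σ (σ x d)).symm x) f := by
    rw [Equiv.symm_apply_eq, ← e1]
    exact key.symm
  refine Prod.ext e4 ?_
  -- third coordinates
  show (σ c).symm b = (σ (σ ((σ (σ x d)).symm x) f)).symm ((σ (σ x d)).symm x)
  rw [← e4, Equiv.eq_symm_apply]
  have h5 := h' a c ((σ c).symm b)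
  rw [Equiv.apply_symm_apply, e2] at h5
  rw [Equiv.eq_symm_apply, e1]
  exact h5.symm

end general

section family

variable (p : ℕ)

/-- `t 0 = 0` and `t a = 1` for `a ≠ 0` -/
def t (a : ZMod p) : ZMod p := if a = 0 then 0 else 1

lemma t_neg (a : ZMod p) : t p (-a) = t p a := by
  unfold t
  simp

/-- `β_(i,j) k = k + j` -/
def bet (_i j : ZMod p) : Equiv.Perm (ZMod p) := Equiv.addRight j

/-- `α_(i,j,k) l = l - t (k + j - i)` -/
def alp (i j k : ZMod p) : Equiv.Perm (ZMod p) := Equiv.subRight (t p (k + j - i))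

/-- the solution `σ_(i,j) (k, l) = (k + j, l - t (k + j - i))` -/
def sol (x : ZMod p × ZMod p) : Equiv.Perm (ZMod p × ZMod p) where
  toFun u := (u.1 + x.2, u.2 - t p (u.1 + x.2 - x.1))
  invFun u := (u.1 - x.2, u.2 + t p (u.1 - x.1))
  left_inv u := by
    refine Prod.ext ?_ ?_ <;> simp
  right_inv u := by
    refine Prod.ext ?_ ?_ <;> simp

lemma sol_braid : ∀ x y z, sol p x (sol p ((sol p x).symm y) z) =
    sol p y (sol p ((sol p y).symm x) z) := by
  rintro ⟨i, j⟩ ⟨k, l⟩ ⟨u, v⟩
  have hs : t p (k - i) = t p (i - k) := by rw [← t_neg, neg_sub]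
  refine Prod.ext ?_ ?_
  · show u + (l + t p (k - i)) + j = u + (j + t p (i - k)) + l
    rw [hs]; ring
  · show v - t p (u + (l + t p (k - i)) - (k - j)) - t p (u + (l + t p (k - i)) + j - i) =
      v - t p (u + (j + t p (i - k)) - (i - l)) - t p (u + (j + t p (i - k)) + l - k)
    rw [hs, show u + (l + t p (i - k)) - (k - j) = u + (j + t p (i - k)) + l - k by ring,
      show u + (l + t p (i - k)) + j - i = u + (j + t p (i - k)) - (i - l) by ring]
    ring

lemma sol_isSolution : IsSolution (sol p) := isSolution_of _ (sol_braid p)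

lemma sol_blockForm : BlockForm (sol p) (bet p) (alp p) := fun _ _ _ _ => rfl

lemma sol_irretractable : Irretractable (sol p) := by
  rintro ⟨i, j⟩ ⟨i', j'⟩ h
  have h1 := congrArg (fun g : Equiv.Perm (ZMod p × ZMod p) => g (i - j, 0)) h
  have e1 : (i - j) + j = (i - j) + j' := congrArg Prod.fst h1
  have ej : j = j' := add_left_cancel e1
  have e2 : (0 : ZMod p) - t p (i - j + j - i) = 0 - t p (i - j + j' - i') := congrArg Prod.snd h1
  rw [← ej, sub_add_cancel, sub_self, sub_right_inj] at e2
  have ei : i = i' := by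
    by_contra hne
    have h0 : i - i' ≠ 0 := sub_ne_zero.2 hne
    unfold t at e2
    rw [if_pos rfl, if_neg h0] at e2
    have hp : p ≠ 1 := by
      rintro rfl
      exact hne (Subsingleton.elim _ _)
    have : Nontrivial (ZMod p) := ZMod.nontrivial_iff.2 hp
    exact zero_ne_one e2
  rw [ei, ej]

lemma sol_indecomposable [Fact p.Prime] : Indecomposable (sol p) := by
  intro x y
  -- reachability as a transitive relation
  let Rel : ZMod p × ZMod p → ZMod p × ZMod p → Prop := fun a b => ∃ g ∈ group (sol p), g a = b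
  have htrans : ∀ a b c, Rel a b → Rel b c → Rel a c := by
    rintro a b c ⟨g, hg, rfl⟩ ⟨h, hh, rfl⟩
    exact ⟨h * g, (group (sol p)).mul_mem hh hg, rfl⟩
  have hgen : ∀ z a, Rel a (sol p z a) := fun z a => ⟨sol p z, Subgroup.subset_closure ⟨z, rfl⟩, rfl⟩
  have hfirst : ∀ k l j, Rel (k, l) (k + j, l) := by
    intro k l j
    have h := hgen (k + j, j) (k, l)
    have e : sol p (k + j, j) (k, l) = (k + j, l) := by
      refine Prod.ext rfl ?_
      show l - t p (k + j - (k + j)) = l
      simp [t]
    rwa [e] at h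
  have hsecond : ∀ k l, Rel (k, l) (k, l - 1) := by
    intro k l
    have h := hgen (k + 1, 0) (k, l)
    have e : sol p (k + 1, 0) (k, l) = (k, l - 1) := by
      refine Prod.ext ?_ ?_
      · show k + 0 = k
        simp
      · show l - t p (k + 0 - (k + 1)) = l - 1
        have : k + 0 - (k + 1) = (-1 : ZMod p) := by ring
        rw [this, t_neg, t, if_neg one_ne_zero]
    rwa [e] at h
  have hn : ∀ (m : ℕ) k l, Rel (k, l) (k, l - m) := by
    intro m
    induction m with
    | zero => intro k l; exact ⟨1, (group (sol p)).one_mem, by simp⟩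
    | succ m ih =>
      intro k l
      have h := htrans _ _ _ (ih k l) (hsecond k (l - m))
      have e : l - (m : ZMod p) - 1 = l - ((m + 1 : ℕ) : ZMod p) := by push_cast; ring
      rwa [e] at h
  obtain ⟨k, l⟩ := x
  obtain ⟨k', l'⟩ := y
  have h1 := hfirst k l (k' - k)
  rw [add_sub_cancel] at h1
  have h2 := hn (l - l').val k' l
  rw [ZMod.natCast_zmod_val, sub_sub_cancel] at h2
  exact htrans _ _ _ h1 h2

end family

section relabelling

variable {Y Z : Type}

lemma transport_apply (π : Y → Equiv.Perm Z) (σ : Y × Z → Equiv.Perm (Y × Z)) (x u : Y × Z) :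
    transport π σ x u = relabel π (σ ((relabel π).symm x) ((relabel π).symm u)) := rfl

lemma transport_isSolution (π : Y → Equiv.Perm Z) (σ : Y × Z → Equiv.Perm (Y × Z))
    (h : ∀ x y z, σ x (σ ((σ x).symm y) z) = σ y (σ ((σ y).symm x) z)) :
    IsSolution (transport π σ) := by
  apply isSolution_of
  intro x y z
  have hs : ∀ x y, (transport π σ x).symm y =
      relabel π ((σ ((relabel π).symm x)).symm ((relabel π).symm y)) := by
    intro x y
    rw [Equiv.symm_apply_eq, transport_apply]
    simp
  rw [hs, hs]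
  simp only [transport_apply, Equiv.symm_apply_apply]
  rw [h]

lemma transport_eq (π : Y → Equiv.Perm Z) (σ : Y × Z → Equiv.Perm (Y × Z)) (x : Y × Z) :
    transport π σ (relabel π x) = relabel π * σ x * (relabel π)⁻¹ := by
  ext1 u
  rw [transport_apply, Equiv.symm_apply_apply]
  rfl

lemma transport_irretractable (π : Y → Equiv.Perm Z) (σ : Y × Z → Equiv.Perm (Y × Z))
    (h : Irretractable σ) : Irretractable (transport π σ) := by
  intro x y hxy
  obtain ⟨x, rfl⟩ := (relabel π).surjective x
  obtain ⟨y, rfl⟩ := (relabel π).surjective y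
  rw [transport_eq, transport_eq] at hxy
  rw [h (mul_left_cancel (mul_right_cancel hxy))]

lemma transport_group (π : Y → Equiv.Perm Z) (σ : Y × Z → Equiv.Perm (Y × Z))
    (g : Equiv.Perm (Y × Z)) (hg : g ∈ group σ) :
    relabel π * g * (relabel π)⁻¹ ∈ group (transport π σ) := by
  induction hg using Subgroup.closure_induction with
  | mem g hg =>
    obtain ⟨x, rfl⟩ := hg
    exact Subgroup.subset_closure ⟨relabel π x, transport_eq π σ x⟩
  | one => simp [(group (transport π σ)).one_mem]
  | mul g h _ _ hg hh =>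
    have := (group (transport π σ)).mul_mem hg hh
    have e : relabel π * g * (relabel π)⁻¹ * (relabel π * h * (relabel π)⁻¹) =
        relabel π * (g * h) * (relabel π)⁻¹ := by group
    rwa [e] at this
  | inv g _ hg =>
    have := (group (transport π σ)).inv_mem hg
    have e : (relabel π * g * (relabel π)⁻¹)⁻¹ = relabel π * g⁻¹ * (relabel π)⁻¹ := by group
    rwa [e] at this

lemma transport_indecomposable (π : Y → Equiv.Perm Z) (σ : Y × Z → Equiv.Perm (Y × Z))
    (h : Indecomposable σ) : Indecomposable (transport π σ) := by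
  intro x y
  obtain ⟨g, hg, hgx⟩ := h ((relabel π).symm x) ((relabel π).symm y)
  refine ⟨_, transport_group π σ g hg, ?_⟩
  show relabel π (g ((relabel π).symm x)) = y
  rw [hgx, Equiv.apply_symm_apply]

end relabelling

/-- **Main theorem.** For every prime `p`:
(1) some indecomposable irretractable solution on `(ℤ / p) ^ 2` in the block setting does not have the
property of Q1;
(2) if `p` is odd, then some indecomposable irretractable solution on `(ℤ / p) ^ 2` in the block setting
has the property of Q1, but does not have the property of Q2, and this remains true after any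
relabelling of the points inside the blocks. -/
theorem result (p : ℕ) (hp : p.Prime) :
    (∃ (σ : ZMod p × ZMod p → Equiv.Perm (ZMod p × ZMod p))
      (β : ZMod p → ZMod p → Equiv.Perm (ZMod p)) (α : ZMod p → ZMod p → ZMod p → Equiv.Perm (ZMod p)),
      IsSolution σ ∧ Indecomposable σ ∧ Irretractable σ ∧ BlockForm σ β α ∧ ¬ Q1Property β) ∧
    (p ≠ 2 → ∃ (σ : ZMod p × ZMod p → Equiv.Perm (ZMod p × ZMod p))
      (β : ZMod p → ZMod p → Equiv.Perm (ZMod p)) (α : ZMod p → ZMod p → ZMod p → Equiv.Perm (ZMod p)),
      IsSolution σ ∧ Indecomposable σ ∧ Irretractable σ ∧ BlockForm σ β α ∧ Q1Property β ∧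
      ¬ Q2Property β α ∧
      ∀ (π : ZMod p → Equiv.Perm (ZMod p)) (β' : ZMod p → ZMod p → Equiv.Perm (ZMod p))
        (α' : ZMod p → ZMod p → ZMod p → Equiv.Perm (ZMod p)),
        BlockForm (transport π σ) β' α' → ¬ Q2Property β' α') := by
  have : Fact p.Prime := ⟨hp⟩
  constructor
  · -- relabel one fibre
    classical
    let π : ZMod p → Equiv.Perm (ZMod p) := fun y => if y = 0 then Equiv.addRight 1 else 1
    refine ⟨transport π (sol p), fun y z => Equiv.addRight ((π y).symm z),
      fun y z y' => (π y').symm.trans ((Equiv.subRight (t p (y' + (π y).symm z - y))).trans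
        (π (y' + (π y).symm z))), transport_isSolution π _ (sol_braid p),
      transport_indecomposable π _ (sol_indecomposable p),
      transport_irretractable π _ (sol_irretractable p), fun _ _ _ _ => rfl, ?_⟩
    intro h
    have h1 := congrArg (fun g : Equiv.Perm (ZMod p) => g 0) (h 0 1 0)
    have h2 : (0 : ZMod p) + (π 0).symm 0 = 0 + (π 1).symm 0 := h1
    have e0 : π 0 = Equiv.addRight 1 := if_pos rfl
    have e1 : π 1 = 1 := if_neg one_ne_zero
    rw [e0, e1] at h2
    have h3 : (0 : ZMod p) + (0 + -1) = 0 + 0 := h2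
    simp at h3
  · intro h2
    have hmain : ∀ (π : ZMod p → Equiv.Perm (ZMod p)) (β' : ZMod p → ZMod p → Equiv.Perm (ZMod p))
        (α' : ZMod p → ZMod p → ZMod p → Equiv.Perm (ZMod p)),
        BlockForm (transport π (sol p)) β' α' → ¬ Q2Property β' α' := by
      intro π β' α' hB hQ
      have hb : ∀ y z y', β' y z y' = y' + (π y).symm z := fun y z y' =>
        (congrArg Prod.fst (hB y z y' 0)).symm
      have ha : ∀ y z y' u, α' y z y' u = π (y' + (π y).symm z)
          ((π y').symm u - t p (y' + (π y).symm z - y)) := fun y z y' u =>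
        (congrArg Prod.snd (hB y z y' u)).symm
      -- `π` is constant
      have hconst : ∀ y' y'', π y' = π y'' := by
        intro y' y''
        have e := (hQ 0 y' y'' (π 0 (-y')) (π 0 (-y''))).2 (by
          rw [hb, hb, Equiv.symm_apply_apply, Equiv.symm_apply_apply]; ring)
        have e' : (π y').symm = (π y'').symm := by
          ext1 u
          have e3 := congrArg (fun g : Equiv.Perm (ZMod p) => g u) e
          simp only [ha, Equiv.symm_apply_apply, add_neg_cancel] at e3
          exact sub_left_injective ((π 0).injective e3)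
        rw [← Equiv.symm_symm (π y'), e', Equiv.symm_symm]
      have e := (hQ 0 1 (-1) (π 0 0) (π 0 0)).1 (by
        ext1 u
        rw [ha, ha, Equiv.symm_apply_apply, add_zero, add_zero, sub_zero, sub_zero, t_neg,
          hconst 1 0, hconst (-1) 0])
      rw [hb, hb, Equiv.symm_apply_apply, add_zero, add_zero] at e
      have h4 : ((2 : ℕ) : ZMod p) = 0 := by
        push_cast
        have : (1 : ZMod p) + 1 = 0 := by
          nth_rewrite 1 [e]
          ring
        rw [← this]; norm_num
      rw [ZMod.natCast_eq_zero_iff] at h4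
      exact h2 ((Nat.prime_dvd_prime_iff_eq hp Nat.prime_two).1 h4)
    refine ⟨sol p, bet p, alp p, sol_isSolution p, sol_indecomposable p, sol_irretractable p,
      sol_blockForm p, fun _ _ _ => rfl, ?_, hmain⟩
    apply hmain (fun _ => 1)
    intro y z y' z'
    rfl

end Pool.Agent.Results.MP_a65784_al.BlockStructure
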